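import Mathlib
import Pool.Agent.H78Ext.Omega

/-!
# `EXT(ω*)` does not imply `ACA₀` over `RCA₀`

There is an `ω`-model of `RCA₀ + EXT(ω*)` in which arithmetical comprehension fails; its
second-order part is a Turing ideal that does not contain the halting set.
-/

namespace Pool.Agent.Results.MP_7fe518_lc.ExtOmegaStar

open Pool.Agent.H78Ext

/-- There is a Turing ideal `S` without the halting set such that `(ℕ, S)` is a model of
`RCA₀ + EXT(ω*)` in which arithmetical comprehension fails. -/
theorem result : ∃ S : Set (Set ℕ), IsTuringIdeal S ∧ haltingSet ∉ S ∧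
    (omegaStructure S).RCA0 ∧ (omegaStructure S).ExtOmegaStar ∧
    ¬ (omegaStructure S).ArithComprehension := main

end Pool.Agent.Results.MP_7fe518_lc.ExtOmegaStar
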